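import Mathlib
import Pool.Agent.H.MP_c9c571_nt.C
import Pool.Agent.H.MP_c9c571_nt.D

open Finset Polynomial

namespace Pool.Agent.Results.MP_c25fd9_nt.Yes

noncomputable def q : RatFunc ℚ := RatFunc.X

noncomputable def poch (a b : RatFunc ℚ) (k : ℕ) : RatFunc ℚ := ∏ j ∈ range k, (1 - a * b ^ j)

noncomputable def a (k : ℕ) : RatFunc ℚ :=
  poch q (q ^ 2) k ^ 2 * poch (q ^ 2) (q ^ 4) k * q ^ (2 * k) /
    (poch (q ^ 2) (q ^ 2) k ^ 2 * poch (q ^ 4) (q ^ 4) k)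

def T (m : ℕ) : ℚ := ∑ k ∈ range m, (∏ j ∈ range k, (1 / 2 + j : ℚ)) ^ 3 / (k.factorial : ℚ) ^ 3

noncomputable def Cn (n : ℕ) : RatFunc ℚ :=
  (1 - q ^ n) / (1 - q) * poch (q ^ 3) (q ^ 4) ((n - 1) / 2) / poch (q ^ 5) (q ^ 4) ((n - 1) / 2)

open Pool.Agent.H.MP_4d1f21_nt Pool.Agent.H.MP_c9c571_nt

theorem a_eq (k : ℕ) : a k = q ^ (2 * k) * hh q k ^ 2 * hh (q ^ 2) k := by
  rw [a, hh, hh, poch, poch, poch, poch, show (q ^ 2) ^ 2 = q ^ 4 by ring]; ring

theorem Cn_eq (v : ℕ) : Cn (2 * (2 * v) + 1) = ∏ i ∈ range v,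
    (1 - q ^ (4 * (v - 1 - i) + 3)) * (1 - q ^ (4 * (v + i) + 3)) *
      ((1 - q ^ (4 * (v - 1 - i) + 1)) * (1 - q ^ (4 * (v + i) + 5)))⁻¹ := by
  have h : ∀ j, 0 < j → 1 - q ^ j ≠ 0 := fun j hj => qne hj
  have h1 : poch (q ^ 3) (q ^ 4) (v + v)
      = (∏ i ∈ range v, (1 - q ^ (4 * (v - 1 - i) + 3))) * ∏ i ∈ range v, (1 - q ^ (4 * (v + i) + 3)) := by
    rw [poch, prod_range_add, prod_range_reflect (fun j => 1 - q ^ (4 * j + 3))]
    congr 1 <;> exact prod_congr rfl fun j _ => by ring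
  have h2 : poch (q ^ 5) (q ^ 4) (v + v) * (1 - q) = (1 - q ^ (2 * (2 * v) + 1)) *
      ((∏ i ∈ range v, (1 - q ^ (4 * (v - 1 - i) + 1))) * ∏ i ∈ range v, (1 - q ^ (4 * (v + i) + 5))) := by
    have e1 := prod_range_succ' (fun j => 1 - q ^ (4 * j + 1)) v
    rw [prod_range_succ] at e1
    have e2 : ∏ j ∈ range v, (1 - q ^ 5 * (q ^ 4) ^ j) = ∏ j ∈ range v, (1 - q ^ (4 * (j + 1) + 1)) :=
      prod_congr rfl fun j _ => by ring
    have e3 : ∏ j ∈ range v, (1 - q ^ 5 * (q ^ 4) ^ (v + j))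
        = ∏ j ∈ range v, (1 - q ^ (4 * (v + j) + 5)) := prod_congr rfl fun j _ => by ring
    rw [poch, prod_range_add, prod_range_reflect (fun j => 1 - q ^ (4 * j + 1)), e2, e3]
    linear_combination (-∏ j ∈ range v, (1 - q ^ (4 * (v + j) + 5))) * e1
  have n1 : 1 - q ≠ 0 := by simpa using h 1 one_pos
  have n2 := h (2 * (2 * v) + 1) (by omega)
  have n3 : ∏ i ∈ range v, (1 - q ^ (4 * (v - 1 - i) + 1)) ≠ 0 :=
    prod_ne_zero_iff.2 fun j _ => h _ (by omega)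
  have n4 : ∏ i ∈ range v, (1 - q ^ (4 * (v + i) + 5)) ≠ 0 :=
    prod_ne_zero_iff.2 fun j _ => h _ (by omega)
  rw [Cn, show (2 * (2 * v) + 1 - 1) / 2 = v + v by omega, h1, eq_div_of_mul_eq n1 h2,
    prod_mul_distrib, prod_mul_distrib, prod_inv_distrib, prod_mul_distrib]
  field_simp

theorem alg {A : Type*} [CommRing A] (a b c e Uk Ud Vk Vd lk ld L mk md M : A) (hc : c ^ 2 = a * b)
    (H1 : e * (a * Uk) = e * (c * Ud)) (H2 : e * (a ^ 2 * Vk) = e * (c ^ 2 * Vd))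
    (H3 : e * (lk + ld - L) = 0) (H4 : e * (mk + md - M) = 0) :
    a ^ 2 * (e * (a ^ 2 * Uk ^ 2 * Vk * (2 * (2 * lk - L) + 2 * (2 * mk - M)))
      + e * (b ^ 2 * Ud ^ 2 * Vd * (2 * (2 * ld - L) + 2 * (2 * md - M)))) = 0 := by
  linear_combination ((2 * (2 * lk - L) + 2 * (2 * mk - M)) * (a ^ 2 * Vk) * (a * Uk + c * Ud)) * H1
    + ((2 * (2 * lk - L) + 2 * (2 * mk - M)) * (c * Ud) ^ 2) * H2
    + (e * (2 * (2 * lk - L) + 2 * (2 * mk - M)) * Ud ^ 2 * Vd * (c ^ 2 + a * b)) * hc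
    + 4 * a ^ 2 * b ^ 2 * Ud ^ 2 * Vd * (H3 + H4)

theorem result (m n : ℕ) (_hm : 1 ≤ m) (h1 : 1 < n) (hn : n % 4 = 1) :
    cyclotomic n ℚ ^ 2 ∣ (∑ k ∈ range (m * n), a k - Cn n * RatFunc.C (T m)).num ∧
      IsCoprime (∑ k ∈ range (m * n), a k - Cn n * RatFunc.C (T m)).denom (cyclotomic n ℚ ^ 2) := by
  obtain ⟨v, hv⟩ : ∃ v, n = 2 * (2 * v) + 1 := ⟨n / 4, by omega⟩
  have := nontriv (n := n) (e := 2) (by omega) (by omega)
  set P := cyclotomic n ℚ ^ 2
  set x := AdjoinRoot.root P with hx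
  set φ := algebraMap ℚ (AdjoinRoot P)
  have he : (x ^ n - 1) ^ 2 = 0 := eps_pow n 2
  have hun : ∀ j, ¬ n ∣ j → IsUnit (1 - x ^ j) := fun j hj => unit_root 2 (by omega) hj
  have hcop : Nat.Coprime n 2 := Nat.coprime_two_right.2 (Nat.odd_iff.2 (by omega))
  obtain ⟨iu, hiu⟩ := ex_iv x n hun
  obtain ⟨iv, hiv⟩ := ex_iv (x ^ 2) n fun j hj => by
    rw [← pow_mul]; exact hun _ fun h => hj (hcop.dvd_of_dvd_mul_left h)
  have e2 : (x ^ 2) ^ n - 1 = 2 * (x ^ n - 1) := by linear_combination he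
  have he2 : ((x ^ 2) ^ n - 1) ^ 2 = 0 := by rw [e2]; linear_combination 4 * he
  have hf : φ (1 / 2) * 2 = 1 := by
    rw [show (2 : AdjoinRoot P) = φ 2 from (map_ofNat _ 2).symm, ← map_mul]; norm_num
  have rq : Rel P q x := Rel.X
  have hK1 : ∀ j, 0 < j → 1 - q ^ j ≠ 0 := fun j hj => qne hj
  have hK : ∀ j, 0 < j → 1 - (q ^ 2) ^ j ≠ 0 := fun j hj => by
    rw [← pow_mul]; exact qne (by omega)
  set α : ℕ → AdjoinRoot P := fun k =>
    x ^ (2 * k) * U x iu n (2 * k) ^ 2 * U (x ^ 2) iv n (2 * k) with hα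
  set β : ℕ → AdjoinRoot P := fun k => (x ^ n - 1) * ((x ^ k) ^ 2 * U x iu n (2 * k) ^ 2 *
    U (x ^ 2) iv n (2 * k) * (2 * (2 * lam x iu (2 * k) - lam x iu (2 * (2 * v)))
      + 2 * (2 * lam (x ^ 2) iv (2 * k) - lam (x ^ 2) iv (2 * (2 * v))))) with hβ
  have hxt : x * (x ^ (4 * v) * (2 - x ^ n)) = 1 := by
    rw [← mul_assoc, ← pow_succ', show 4 * v + 1 = n by omega]; linear_combination -he
  have hxu : IsUnit x := IsUnit.of_mul_eq_one _ hxt
  have hb : ∑ k ∈ range (2 * v + 1), β k = 0 := anti β _ fun k d hkd => by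
    have H1 := U_refl hv he hiu v k d rfl hkd
    have H2 := U_refl hv he2 hiv v k d rfl hkd
    have H3 := lam_refl hv he hiu k d hkd
    have H4 := lam_refl hv he2 hiv k d hkd
    rw [e2] at H2 H4
    refine (((hxu.pow k).pow 2).mul_right_eq_zero).1 ?_
    refine alg (x ^ k) (x ^ d) (x ^ v) _ _ _ _ _ _ _ _ _ _ _ ?_ H1 ?_ H3 ?_
    · rw [← pow_add, hkd]; ring
    · linear_combination φ (1 / 2) * H2 - ((x ^ n - 1) * ((x ^ k) ^ 2 * U (x ^ 2) iv n (2 * k))
        - (x ^ n - 1) * ((x ^ v) ^ 2 * U (x ^ 2) iv n (2 * d))) * hf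
    · linear_combination φ (1 / 2) * H4 - (x ^ n - 1) * (lam (x ^ 2) iv (2 * k)
        + lam (x ^ 2) iv (2 * d) - lam (x ^ 2) iv (2 * (2 * v))) * hf
  have ra : ∀ K y z, Rel P (hh q K) y → Rel P (hh (q ^ 2) K) z →
      Rel P (a K) (x ^ (2 * K) * y ^ 2 * z) := fun K y z hy hz => by
    rw [a_eq]
    exact ((rq.pow _).mul (hy.pow 2)).mul hz
  have blk : ∀ r, Rel P (∑ k ∈ range n, a (n * r + k))
      (φ (gam r) ^ 3 * ∑ k ∈ range (2 * v + 1), α k) := by
    intro r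
    have hr : φ (r / 2) * 2 = r := by
      rw [show (2 : AdjoinRoot P) = φ 2 from (map_ofNat _ 2).symm, ← map_mul, ← map_natCast φ]
      congr 1; ring
    have lo : Rel P (∑ k ∈ range (2 * v + 1), a (n * r + k))
        (∑ k ∈ range (2 * v + 1), φ (gam r) ^ 3 * (α k + r * β k)) := by
      refine Rel.sum _ fun k hk => ?_
      have hk' : k ≤ 2 * v := by have := mem_range.1 hk; omega
      convert ra _ _ _ (rel_lo rq hK1 hv he hiu r k hk') (rel_lo (rq.pow 2) hK hv he2 hiv r k hk')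
        using 1
      rw [e2, show 2 * (n * r + k) = n * (2 * r) + 2 * k by ring, pow_add, pw he]
      simp only [hα, hβ]
      push_cast
      generalize x ^ n - 1 = e at he
      set D := 2 * lam (x ^ 2) iv (2 * k) - lam (x ^ 2) iv (2 * (2 * v))
      set D' := 2 * lam x iu (2 * k) - lam x iu (2 * (2 * v))
      have h3 : ∀ s t w : AdjoinRoot P, (1 + e * s) * (1 + e * t) ^ 2 * (1 + 2 * e * w)
          = 1 + e * (s + 2 * t + 2 * w) := fun s t w => by
        linear_combination (2 * s * t + t ^ 2 + 2 * w * (s + 2 * t) + e * (s * t ^ 2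
          + 2 * w * (2 * s * t + t ^ 2)) + 2 * e ^ 2 * w * s * t ^ 2) * he
      linear_combination φ (gam r) ^ 3 * U x iu n (2 * k) ^ 2 * U (x ^ 2) iv n (2 * k) * x ^ (2 * k) *
        (2 * e * hr - h3 (2 * r) (r * D' - φ (r / 2)) (r * D - φ (r / 2)))
    have hi : Rel P (∑ k ∈ range (2 * v), a (n * r + (2 * v + 1 + k))) (∑ k ∈ range (2 * v), 0) := by
      refine Rel.sum _ fun k hk => ?_
      have hk' := mem_range.1 hk
      obtain ⟨z, hz⟩ := rel_hi (rq.pow 2) hK hv he2 hiv r (2 * v + 1 + k) (by omega) (by omega)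
      obtain ⟨y, hy⟩ := rel_hi rq hK1 hv he hiu r (2 * v + 1 + k) (by omega) (by omega)
      convert ra _ _ _ hy hz using 1
      rw [mul_pow, he]; ring
    conv => arg 2; rw [show range n = range (2 * v + 1 + 2 * v) by congr 1; omega, sum_range_add]
    convert lo.add hi using 1
    rw [← mul_sum, sum_add_distrib, ← mul_sum, hb]; simp
  have rS : Rel P (∑ k ∈ range (2 * v + 1), F2 q (q ^ (4 * v + 1)) k)
      (∑ k ∈ range (2 * v + 1), α k) := by
    refine Rel.sum _ fun k hk => ?_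
    have hk' : k ≤ 2 * v := by have := mem_range.1 hk; omega
    have rY : Rel P (q ^ (4 * v + 1)) (x ^ n) := by rw [show 4 * v + 1 = n by omega]; exact rq.pow _
    set Y := x ^ n
    have rp : Rel P (F2 q (q ^ (4 * v + 1)) k) (x ^ (2 * k) *
        ∏ j ∈ range k, ((1 - x ^ (2 * j + 1)) * iu (2 * j + 1 + 1)) ^ 2 *
          ((1 - (x ^ 2) ^ (2 * j + 1)) * iv (2 * j + 1 + 1))) := by
      refine (rq.pow _).mul (Rel.prod _ fun j hj => ?_)
      have hj' := mem_range.1 hj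
      have i1 := hiv (2 * j + 1 + 1) (nd0 (by omega) (by omega))
      have i2 := hiu (2 * j + 1 + 1) (nd0 (by omega) (by omega))
      rw [show (x ^ 2) ^ (2 * j + 1 + 1) = x ^ (4 * j + 4) by ring] at i1
      rw [div_eq_mul_inv, show (x ^ 2) ^ (2 * j + 1) = x ^ (4 * j + 2) by ring]
      convert (((rY.sub (rq.pow (2 * j + 1))).mul (Rel.one.sub (rY.mul (rq.pow (2 * j + 1))))).mul
        (Rel.one.sub (rq.pow (4 * j + 2)))).mul (((rY.mul ((Rel.one.sub (rq.pow (2 * j + 2))).pow 2)).mul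
        (Rel.one.sub (rq.pow (4 * j + 4)))).inv
        (b := (2 - Y) * iu (2 * j + 1 + 1) ^ 2 * iv (2 * j + 1 + 1)) ?_) using 1
      · generalize x ^ (2 * j + 1) = z
        linear_combination iu (2 * j + 1 + 1) ^ 2 * iv (2 * j + 1 + 1) * (1 - x ^ (4 * j + 2))
          * ((1 - z) ^ 2 + z * (2 - Y)) * he
      · generalize x ^ (4 * j + 4) = z at i1
        rw [show 2 * j + 2 = 2 * j + 1 + 1 by ring]
        generalize x ^ (2 * j + 1 + 1) = y at i2
        linear_combination i1 + ((1 - z) * iv (2 * j + 1 + 1) * ((1 - y) * iu (2 * j + 1 + 1) + 1)) * i2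
          - ((1 - y) * iu (2 * j + 1 + 1)) ^ 2 * ((1 - z) * iv (2 * j + 1 + 1)) * he
    convert rp using 1
    simp only [hα]
    rw [prod_mul_distrib, prod_pow, ← U_prod hv k hk', ← U_prod hv k hk']; ring
  have hS : ∑ k ∈ range (2 * v + 1), F2 q (q ^ (4 * v + 1)) k = ∏ j ∈ range v,
      q ^ 2 * (1 - q ^ (4 * j + 2)) ^ 2 * ((1 - q ^ (4 * j + 4)) ^ 2)⁻¹ := by
    have h2 := F2_sum (q := q) RatFunc.X_ne_zero hK1 v (2 * v + 1) (by omega)
    have h3 : ∏ j ∈ range v, (1 - q ^ (4 * j + 4)) ≠ 0 :=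
      prod_ne_zero_iff.2 fun j _ => hK1 _ (by omega)
    rw [prod_mul_distrib, prod_mul_distrib, prod_inv_distrib, prod_pow, prod_pow, prod_pow,
      prod_const, card_range]
    field_simp
    linear_combination h2
  have rR : Rel P (Cn n) (∑ k ∈ range (2 * v + 1), α k) := by
    have r1 : Rel P (∑ k ∈ range (2 * v + 1), F2 q (q ^ (4 * v + 1)) k)
        (∏ j ∈ range v, x ^ 2 * (1 - x ^ (4 * j + 2)) ^ 2 * iv (2 * j + 2) ^ 2) := by
      rw [hS]
      refine Rel.prod _ fun j hj => ((rq.pow 2).mul ((Rel.one.sub (rq.pow _)).pow 2)).mul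
        (((Rel.one.sub (rq.pow _)).pow 2).inv ?_)
      have i1 := hiv (2 * j + 2) (nd0 (by omega) (by have := mem_range.1 hj; omega))
      rw [← mul_pow, show x ^ (4 * j + 4) = (x ^ 2) ^ (2 * j + 2) by ring, i1, one_pow]
    have r2 : Rel P (Cn n)
        (∏ j ∈ range v, x ^ 2 * (1 - x ^ (4 * j + 2)) ^ 2 * iv (2 * j + 2) ^ 2) := by
      have : Cn n = Cn (2 * (2 * v) + 1) := by rw [← hv]
      rw [this, Cn_eq]
      refine Rel.prod _ fun j hj => ?_
      have hj' := mem_range.1 hj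
      have i1 := hiv (2 * j + 2) (nd0 (by omega) (by omega))
      rw [show (x ^ 2) ^ (2 * j + 2) = x ^ (4 * j + 4) by ring] at i1
      have p1 : x ^ (4 * (v - 1 - j) + 3) * x ^ (4 * j + 2) = x ^ n := by
        rw [← pow_add]; congr 1; omega
      have p2 : x ^ (4 * (v + j) + 3) = x ^ n * x ^ (4 * j + 2) := by
        rw [← pow_add]; congr 1; omega
      have p3 : x ^ (4 * (v - 1 - j) + 1) * x ^ (4 * j + 4) = x ^ n := by
        rw [← pow_add]; congr 1; omega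
      have p4 : x ^ (4 * (v + j) + 5) = x ^ n * x ^ (4 * j + 4) := by
        rw [← pow_add]; congr 1; omega
      convert ((Rel.one.sub (rq.pow (4 * (v - 1 - j) + 3))).mul
        (Rel.one.sub (rq.pow (4 * (v + j) + 3)))).mul (((Rel.one.sub (rq.pow (4 * (v - 1 - j) + 1))).mul
        (Rel.one.sub (rq.pow (4 * (v + j) + 5)))).inv
        (b := -(x ^ (4 * j + 4) * (2 - x ^ n) * iv (2 * j + 2) ^ 2)) ?_) using 1
      · rw [p2, show x ^ (4 * j + 4) = x ^ (4 * j + 2) * x ^ 2 by ring]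
        generalize x ^ (4 * j + 2) = z at p1
        generalize x ^ (4 * (v - 1 - j) + 3) = y at p1
        generalize x ^ n = Y at p1 he
        linear_combination x ^ 2 * iv (2 * j + 2) ^ 2 * (((1 - z) ^ 2 + z * (2 - Y)) * he
          - (1 - Y * z) * (2 - Y) * p1)
      · rw [p4]
        generalize x ^ (4 * j + 4) = z at p3 i1
        generalize x ^ (4 * (v - 1 - j) + 1) = y at p3
        generalize x ^ n = Y at p3 he
        linear_combination ((1 - z) * iv (2 * j + 2) + 1) * i1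
          + iv (2 * j + 2) ^ 2 * ((1 - Y * z) * (2 - Y) * p3 - ((1 - z) ^ 2 + z * (2 - Y)) * he)
    have r3 := (r2.sub r1).add rS
    simpa using r3
  apply Rel.fin
  rw [sum_blocks]
  convert (Rel.sum (range m) fun r _ => blk r).sub (rR.mul (Rel.rat _)) using 1
  have : T m = ∑ r ∈ range m, gam r ^ 3 := sum_congr rfl fun r _ => by rw [← gam_eq, div_pow]
  rw [this, map_sum, ← sum_mul]; simp only [map_pow]; ring

end Pool.Agent.Results.MP_c25fd9_nt.Yes
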